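import Pool.Agent.H10.ALG.Targets

/-!
# FIN: the theorem for one level (`MP_64fb07_lc`, board `alg_modules`)
-/

set_option autoImplicit false

namespace Pool.Agent.H61.ALG

open Pool.Agent.H10.ALG Filter

/-- the probability of acceptance -/
noncomputable def prob {n : ℕ} (V : Mac) (O : Orc) (T : ℕ) (e : In n → ℕ) (x : In n)
    (w : Fin T → Bool) (S : Cf (In n) (Wi n)) : ℝ :=
  (accs V (put n O S) T (e x) (List.ofFn x) (List.ofFn w) : ℝ) / 2 ^ T

theorem prob_eq {n : ℕ} (V : Mac) (O : Orc) (T : ℕ) (e : In n → ℕ) (x : In n)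
    (w : Fin T → Bool) (S : Cf (In n) (Wi n)) :
    prob V O T e x w S = ∑ r : Fin T → Bool, (1 / 2 ^ T : ℝ) *
      (if (V (e x) (List.ofFn x) (List.ofFn w) (List.ofFn r)).out (put n O S) = true
        then 1 else 0) := by
  unfold prob accs
  rw [Finset.card_filter, ← Finset.mul_sum]
  push_cast
  ring

theorem one_sub_prob_eq {n : ℕ} (V : Mac) (O : Orc) (T : ℕ) (e : In n → ℕ) (x : In n)
    (w : Fin T → Bool) (S : Cf (In n) (Wi n)) :
    1 - prob V O T e x w S = ∑ r : Fin T → Bool, (1 / 2 ^ T : ℝ) *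
      (if (V (e x) (List.ofFn x) (List.ofFn w) (List.ofFn r)).out (put n O S) = true
        then 0 else 1) := by
  have h1 : ∀ r : Fin T → Bool, (1 / 2 ^ T : ℝ) *
      (if (V (e x) (List.ofFn x) (List.ofFn w) (List.ofFn r)).out (put n O S) = true
        then 0 else 1) = 1 / 2 ^ T - (1 / 2 ^ T : ℝ) *
      (if (V (e x) (List.ofFn x) (List.ofFn w) (List.ofFn r)).out (put n O S) = true
        then 1 else 0) := by
    intro r
    split_ifs <;> ring
  rw [Finset.sum_congr rfl fun r _ => h1 r, Finset.sum_sub_distrib, ← prob_eq]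
  congr 1
  rw [Finset.sum_const, Finset.card_univ, Fintype.card_fun, Fintype.card_bool, Fintype.card_fin,
    nsmul_eq_mul]
  push_cast
  field_simp

theorem prob_mem {n : ℕ} (V : Mac) (O : Orc) (T : ℕ) (e : In n → ℕ) (x : In n)
    (w : Fin T → Bool) (S : Cf (In n) (Wi n)) :
    0 ≤ prob V O T e x w S ∧ prob V O T e x w S ≤ 1 := by
  have h1 : accs V (put n O S) T (e x) (List.ofFn x) (List.ofFn w) ≤ 2 ^ T := by
    unfold accs
    refine (Finset.card_filter_le _ _).trans ?_
    rw [Finset.card_univ, Fintype.card_fun, Fintype.card_bool, Fintype.card_fin]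
  have h2 : (accs V (put n O S) T (e x) (List.ofFn x) (List.ofFn w) : ℝ) ≤ 2 ^ T := by
    exact_mod_cast h1
  unfold prob
  refine ⟨by positivity, ?_⟩
  rw [div_le_one (by positivity)]
  exact h2

theorem avg_simp (hSMP : T_SMP) {n T d : ℕ} (f : (Fin T → Bool) → Cf (In n) (Wi n) → ℝ)
    (h : ∀ r, Simp (2 ^ d) (f r)) :
    Simp (2 ^ d) (fun S => ∑ r : Fin T → Bool, (1 / 2 ^ T : ℝ) * f r S) := by
  obtain ⟨-, -, -, -, -, hmul, hsum, hmono, -⟩ := hSMP (In n) (Wi n)
  have h1 := hsum (Fin T → Bool) Finset.univ (fun _ => (1 / 2 ^ T : ℝ) * 2 ^ d)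
    (fun r S => (1 / 2 ^ T : ℝ) * f r S) (fun r _ => hmul _ _ _ (by positivity) (h r))
  refine hmono _ _ _ (le_of_eq ?_) h1
  rw [Finset.sum_const, Finset.card_univ, Fintype.card_fun, Fintype.card_bool, Fintype.card_fin,
    nsmul_eq_mul]
  push_cast
  field_simp

theorem pf_FIN (hCOE : T_COE) (hNUM : T_NUM) (hTRE : T_TRE) (hSMP : T_SMP) (hLNG : T_LNG) :
    T_FIN := by
  intro j
  filter_upwards [hNUM j] with n hn O V hV
  have hcX : Fintype.card (In n) = 2 ^ n := by
    rw [Fintype.card_fun, Fintype.card_bool, Fintype.card_fin]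
  have hcB : Fintype.card (Wi n) = 2 ^ 2 ^ n := by
    rw [Fintype.card_fun, Fintype.card_bool, Fintype.card_fin]
  have hcW : Fintype.card (Fin (cost j n) → Bool) = 2 ^ cost j n := by
    rw [Fintype.card_fun, Fintype.card_bool, Fintype.card_fin]
  generalize hT : cost j n = T at hn hcW ⊢
  let e : In n ≃ Fin (2 ^ n) := Fintype.equivFinOfCardEq hcX
  have hBd : ∀ (a : ℕ) (x w r : List Bool), x.length = n → (V a x w r).Bd T T := by
    rw [← hT]
    exact hV
  obtain ⟨S, hS1, hS2⟩ := hCOE (In n) (Wi n) (Fin T → Bool)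
    (prob V O T (fun x => (e x : ℕ))) (2 * T * T) (10 + n + T)
    (fun x w S => prob_mem V O T _ x w S)
    (fun x w => by
      have hB : ∀ r : Fin T → Bool,
          (V (e x : ℕ) (List.ofFn x) (List.ofFn w) (List.ofFn r)).Bd T T := fun r =>
        hBd _ _ _ _ (List.length_ofFn)
      constructor
      · have h1 := avg_simp hSMP (n := n) (T := T) (d := 2 * T * T) _
          (fun r => (hTRE n T T O _ (hB r)).1)
        have h2 : prob V O T (fun x => (e x : ℕ)) x w = fun S => ∑ r : Fin T → Bool,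
            (1 / 2 ^ T : ℝ) * (if (V (e x : ℕ) (List.ofFn x) (List.ofFn w)
              (List.ofFn r)).out (put n O S) = true then 1 else 0) :=
          funext fun S => prob_eq V O T _ x w S
        rw [h2]
        exact h1
      · have h1 := avg_simp hSMP (n := n) (T := T) (d := 2 * T * T) _
          (fun r => (hTRE n T T O _ (hB r)).2)
        have h2 : (fun S => 1 - prob V O T (fun x => (e x : ℕ)) x w S) = fun S =>
            ∑ r : Fin T → Bool, (1 / 2 ^ T : ℝ) * (if (V (e x : ℕ) (List.ofFn x) (List.ofFn w)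
              (List.ofFn r)).out (put n O S) = true then 0 else 1) :=
          funext fun S => one_sub_prob_eq V O T _ x w S
        rw [h2]
        exact h1)
    (by
      rw [hcX, hcW, pow_add, pow_add]
      have h1 : (800 : ℕ) ≤ 2 ^ 10 := by norm_num
      exact Nat.mul_le_mul_right _ (Nat.mul_le_mul_right _ h1))
    (by
      rw [hcX, hcB]
      exact hn)
  refine ⟨S, hS1, fun a ha hdec => ?_⟩
  have hex : ((e (e.symm ⟨a, ha⟩) : Fin (2 ^ n)) : ℕ) = a := by
    rw [Equiv.apply_symm_apply]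
  obtain ⟨hd1, hd2⟩ := hdec (List.ofFn (e.symm ⟨a, ha⟩)) List.length_ofFn
  have hl := (hLNG n O S (e.symm ⟨a, ha⟩)).1
  obtain ⟨hs1, hs2⟩ := hS2 (e.symm ⟨a, ha⟩)
  have hT0 : (0 : ℝ) < 2 ^ T := by positivity
  by_cases hdj : Disjoint (S (e.symm ⟨a, ha⟩)).1 (S (e.symm ⟨a, ha⟩)).2
  · obtain ⟨w, hw⟩ := hd1 (fun h => (hl.mp h) hdj)
    have h1 := hs1 hdj w
    unfold prob at h1
    beta_reduce at h1
    rw [hex, div_lt_iff₀ hT0] at h1
    have h2 : (2 * 2 ^ T : ℝ) ≤
        3 * (accs V (put n O S) T a (List.ofFn (e.symm ⟨a, ha⟩)) (List.ofFn w) : ℝ) := by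
      exact_mod_cast hw
    linarith
  · obtain ⟨w, hw⟩ := hs2 hdj
    have h1 := hd2 (fun h => h (hl.mpr hdj)) w
    unfold prob at hw
    beta_reduce at hw
    rw [hex, lt_div_iff₀ hT0] at hw
    have h2 : 3 * (accs V (put n O S) T a (List.ofFn (e.symm ⟨a, ha⟩)) (List.ofFn w) : ℝ) ≤
        2 ^ T := by
      exact_mod_cast h1
    linarith

end Pool.Agent.H61.ALG
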